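import Mathlib
import Pool.Agent.H442R2.EHI.PntErr

/-!
# The counts of primes in two consecutive windows of length `n` decrease strictly

For every `A`, all large `n` and all primes `p ≤ p_n (log n) ^ A` the interval `(p + n, p + 2 n]` contains fewer primes
than `(p, p + n]`. In particular (`A = 0`) the answer to the question is negative: for all large `n` there is no
prime `p ≤ p_n` for which `π(p), π(p + n), π(p + 2 n)` is an arithmetic progression.

Proof: the logarithmic integral drops by at least `n / (3 L ^ A log ^ 2)` and the prime number theorem with the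
error term `y / log ^ U y` is more precise than this.
-/

set_option autoImplicit false

namespace Pool.Agent.Results.MP_d7b30a_nt.FailsForLargeN

open Finset Filter
open Pool.Agent.H442R2.EHI (lis)

lemma card_pc (y : ℕ) : (((Icc 1 y).filter (fun p : ℕ => p.Prime)).card : ℝ) = (Nat.primeCounting y : ℝ) := by
  congr 1
  unfold Nat.primeCounting Nat.primeCounting'
  rw [Nat.count_eq_card_filter_range]
  congr 1
  ext p
  simp only [mem_filter, mem_Icc, mem_range]
  constructor
  · rintro ⟨h1, h2⟩; exact ⟨by omega, h2⟩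
  · rintro ⟨h1, h2⟩; exact ⟨⟨h2.one_lt.le, by omega⟩, h2⟩

/-- the error term is at most its value at the upper end, up to a constant -/
lemma err_unif (U : ℕ) : ∃ C : ℝ, 0 < C ∧ ∃ Y₀ : ℝ, 3 ≤ Y₀ ∧ ∀ Y : ℝ, Y₀ ≤ Y → ∀ y : ℕ, 2 ≤ y → (y : ℝ) ≤ Y →
    |(Nat.primeCounting y : ℝ) - lis y| ≤ C * Y / Real.log Y ^ U := by
  obtain ⟨C, hC⟩ := Pool.Agent.H442R2.EHI.pnt_err U
  have hl2 : 0 < Real.log 2 := Real.log_pos (by norm_num)
  -- `log Y ^ U ≤ √Y` for large `Y`
  have hlim : ∀ᶠ Y : ℝ in atTop, Real.log Y ^ U ≤ Y ^ (1 / 2 : ℝ) := by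
    have h := (isLittleO_log_rpow_rpow_atTop (U : ℝ) (show (0 : ℝ) < 1 / 2 by norm_num)).bound (show (0 : ℝ) < 1 by norm_num)
    filter_upwards [h, eventually_ge_atTop (3 : ℝ)] with Y hY hY3
    have h1 : 0 ≤ Real.log Y := Real.log_nonneg (by linarith)
    rw [Real.norm_of_nonneg (by positivity), Real.norm_of_nonneg (by positivity), one_mul, Real.rpow_natCast] at hY
    exact hY
  obtain ⟨Y₁, hY₁⟩ := eventually_atTop.1 hlim
  refine ⟨(|C| + 1) * (2 ^ U + 1 / Real.log 2 ^ U), by positivity, max Y₁ 3, le_max_right _ _, fun Y hY y hy hyY => ?_⟩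
  have hY3 : 3 ≤ Y := (le_max_right _ _).trans hY
  have hY0 : 0 < Y := by linarith
  have hlY : 0 < Real.log Y := Real.log_pos (by linarith)
  have hy2 : (2 : ℝ) ≤ y := by exact_mod_cast hy
  have hly : Real.log 2 ≤ Real.log y := Real.log_le_log (by norm_num) hy2
  have hly0 : 0 < Real.log y := by linarith
  have h1 := hC y hy
  rw [card_pc] at h1
  have h2 : C * y / Real.log y ^ U ≤ (|C| + 1) * (y / Real.log y ^ U) := by
    rw [mul_div_assoc]
    apply mul_le_mul_of_nonneg_right _ (by positivity)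
    have := le_abs_self C
    linarith
  refine h1.trans (h2.trans ?_)
  rw [mul_assoc, mul_div_assoc]
  apply mul_le_mul_of_nonneg_left _ (by positivity)
  have h3 := hY₁ Y ((le_max_left _ _).trans hY)
  by_cases hs : Y ^ (1 / 2 : ℝ) ≤ y
  · -- `log y ≥ (1/2) log Y`
    have h4 : Real.log Y / 2 ≤ Real.log y := by
      have h5 := Real.log_le_log (by positivity) hs
      rw [Real.log_rpow hY0] at h5
      linarith
    have h5 : (y : ℝ) / Real.log y ^ U ≤ Y / (Real.log Y / 2) ^ U := by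
      apply div_le_div₀ hY0.le hyY (by positivity)
      exact pow_le_pow_left₀ (by positivity) h4 U
    have h6 : Y / (Real.log Y / 2) ^ U = 2 ^ U * (Y / Real.log Y ^ U) := by
      rw [div_pow]; field_simp
    rw [h6] at h5
    refine h5.trans ?_
    rw [mul_div_assoc]
    apply mul_le_mul_of_nonneg_right _ (by positivity)
    have : 0 < 1 / Real.log 2 ^ U := by positivity
    linarith
  · push Not at hs
    have h5 : (y : ℝ) / Real.log y ^ U ≤ Y ^ (1 / 2 : ℝ) / Real.log 2 ^ U := by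
      apply div_le_div₀ (by positivity) hs.le (by positivity)
      exact pow_le_pow_left₀ hl2.le hly U
    have h6 : Y ^ (1 / 2 : ℝ) ≤ Y / Real.log Y ^ U := by
      rw [le_div_iff₀ (by positivity)]
      calc Y ^ (1 / 2 : ℝ) * Real.log Y ^ U ≤ Y ^ (1 / 2 : ℝ) * Y ^ (1 / 2 : ℝ) :=
            mul_le_mul_of_nonneg_left h3 (by positivity)
        _ = Y := by rw [← Real.rpow_add hY0]; norm_num
    refine h5.trans ?_
    rw [mul_div_assoc, add_mul]
    have h7 : Y ^ (1 / 2 : ℝ) / Real.log 2 ^ U ≤ 1 / Real.log 2 ^ U * (Y / Real.log Y ^ U) := by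
      rw [div_eq_mul_one_div, mul_comm]
      exact mul_le_mul_of_nonneg_left h6 (by positivity)
    have : 0 ≤ 2 ^ U * (Y / Real.log Y ^ U) := by positivity
    linarith

lemma lis_sub (x n : ℕ) (hx : 1 ≤ x) : lis (x + n) - lis x = ∑ j ∈ Ioc x (x + n), 1 / Real.log j := by
  unfold Pool.Agent.H442R2.EHI.lis
  have h : Icc 2 (x + n) = Icc 2 x ∪ Ioc x (x + n) := by
    ext j
    simp only [mem_Icc, mem_union, mem_Ioc]
    omega
  have hd : Disjoint (Icc 2 x) (Ioc x (x + n)) := by
    rw [disjoint_left]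
    intro j
    simp only [mem_Icc, mem_Ioc]
    omega
  rw [h, sum_union hd]
  ring

lemma drop (x n : ℕ) (hx : 2 ≤ x) (hn : 1 ≤ n) (Y : ℝ) (hY : (x : ℝ) + 2 * n ≤ Y) :
    lis (x + 2 * n) + lis x + n * (n / (Y * Real.log Y ^ 2)) ≤ 2 * lis (x + n) := by
  have h1 := lis_sub x n (by omega)
  have h2 := lis_sub (x + n) n (by omega)
  have e : x + n + n = x + 2 * n := by ring
  rw [e] at h2
  have h3 : ∑ j ∈ Ioc (x + n) (x + 2 * n), 1 / Real.log j = ∑ j ∈ Ioc x (x + n), 1 / Real.log ((j + n : ℕ) : ℝ) := by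
    have e2 : Ioc (x + n) (x + 2 * n) = (Ioc x (x + n)).image (fun j => j + n) := by
      ext j
      simp only [mem_Ioc, mem_image]
      constructor
      · intro h
        exact ⟨j - n, by omega, by omega⟩
      · rintro ⟨i, h, rfl⟩
        omega
    rw [e2, sum_image (fun a _ b _ h => by simpa using h)]
  rw [h3] at h2
  have hYx : 0 < Y := by
    have : (2 : ℝ) ≤ x := by exact_mod_cast hx
    have : (0 : ℝ) ≤ n := Nat.cast_nonneg n
    linarith
  have hY2 : 2 < Y := by
    have h4 : (2 : ℝ) ≤ x := by exact_mod_cast hx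
    have h5 : (1 : ℝ) ≤ n := by exact_mod_cast hn
    linarith
  have hlY : 0 < Real.log Y := Real.log_pos (by linarith)
  have h4 : ∀ j ∈ Ioc x (x + n), (n : ℝ) / (Y * Real.log Y ^ 2) ≤ 1 / Real.log j - 1 / Real.log ((j + n : ℕ) : ℝ) := by
    intro j hj
    rw [mem_Ioc] at hj
    have hj3 : (3 : ℝ) ≤ j := by exact_mod_cast (by omega : 3 ≤ j)
    have hn1 : (1 : ℝ) ≤ n := by exact_mod_cast hn
    have hjx : (j : ℝ) ≤ x + n := by exact_mod_cast hj.2
    have hl : 0 < Real.log j := Real.log_pos (by linarith)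
    push_cast
    have hjn : 0 < Real.log ((j : ℝ) + n) := Real.log_pos (by linarith)
    have hle : Real.log ((j : ℝ) + n) ≤ Real.log Y := Real.log_le_log (by linarith) (by linarith)
    have hle2 : Real.log (j : ℝ) ≤ Real.log Y := Real.log_le_log (by linarith) (by linarith)
    have h5 : (n : ℝ) / Y ≤ Real.log ((j : ℝ) + n) - Real.log j := by
      have h6 := Real.one_sub_inv_le_log_of_pos (show 0 < ((j : ℝ) + n) / j by positivity)
      rw [Real.log_div (by linarith) (by linarith)] at h6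
      refine le_trans ?_ h6
      rw [inv_div]
      have h7 : 1 - (j : ℝ) / (j + n) = n / (j + n) := by
        field_simp
        ring
      rw [h7]
      apply div_le_div_of_nonneg_left (by linarith) (by linarith)
      linarith
    have h6 : 1 / Real.log j - 1 / Real.log ((j : ℝ) + n) =
        (Real.log ((j : ℝ) + n) - Real.log j) / (Real.log j * Real.log ((j : ℝ) + n)) := by
      field_simp
    rw [h6, ← div_div]
    apply div_le_div₀
    · have : 0 ≤ (n : ℝ) / Y := by positivity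
      linarith
    · exact h5
    · positivity
    · rw [sq]
      exact mul_le_mul hle2 hle hjn.le hlY.le
  have h5 := sum_le_sum h4
  rw [sum_const, Nat.card_Ioc, sum_sub_distrib, nsmul_eq_mul] at h5
  have e3 : x + n - x = n := by omega
  rw [e3] at h5
  linarith

/-- the main estimate -/
lemma main (A : ℕ) : ∃ n₀ : ℕ, ∀ n : ℕ, n₀ ≤ n → ∀ x : ℕ, 2 ≤ x → (x : ℝ) ≤ n * Real.log n ^ A →
    Nat.primeCounting (x + 2 * n) + Nat.primeCounting x < 2 * Nat.primeCounting (x + n) := by
  obtain ⟨C, hC, Y₀, hY₀, hE⟩ := err_unif (2 * A + 3)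
  have hlog : Tendsto (fun n : ℕ => Real.log n) atTop atTop := Real.tendsto_log_atTop.comp tendsto_natCast_atTop_atTop
  obtain ⟨n₀, h0⟩ := eventually_atTop.1 ((hlog.eventually_gt_atTop (36 * C)).and
    ((hlog.eventually_ge_atTop 1).and ((tendsto_natCast_atTop_atTop (R := ℝ)).eventually_ge_atTop Y₀)))
  refine ⟨max n₀ 1, fun n hn x hx hxn => ?_⟩
  obtain ⟨h1, h2, h3⟩ := h0 n ((le_max_left _ _).trans hn)
  have hn1 : 1 ≤ n := (le_max_right _ _).trans hn
  have hn1r : (1 : ℝ) ≤ n := by exact_mod_cast hn1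
  have hn0 : (0 : ℝ) < n := by linarith
  set l := Real.log n with hl
  have hl0 : 0 < l := by linarith
  have hlA : 1 ≤ l ^ A := one_le_pow₀ h2
  obtain ⟨Y, hYdef⟩ : ∃ Y : ℝ, Y = 3 * n * l ^ A := ⟨_, rfl⟩
  have hnY : (n : ℝ) ≤ Y := by rw [hYdef]; nlinarith
  have hYx : (x : ℝ) + 2 * n ≤ Y := by rw [hYdef]; nlinarith
  have hY0 : 0 < Y := by linarith
  have hLY : l ≤ Real.log Y := Real.log_le_log (by linarith) hnY
  have hL0 : 0 < Real.log Y := by linarith
  obtain ⟨L, hL⟩ : ∃ L : ℝ, L = Real.log Y := ⟨_, rfl⟩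
  rw [← hL] at hLY hL0
  have hd := drop x n hx hn1 Y hYx
  rw [← hL] at hd
  have hE' : ∀ y : ℕ, 2 ≤ y → (y : ℝ) ≤ Y → |(Nat.primeCounting y : ℝ) - lis y| ≤ C * Y / L ^ (2 * A + 3) := by
    intro y hy hyY
    have := hE Y (h3.trans hnY) y hy hyY
    rwa [← hL] at this
  have a1 := hE' x hx (by linarith)
  have a2 := hE' (x + n) (by omega) (by push_cast; linarith)
  have a3 := hE' (x + 2 * n) (by omega) (by push_cast; linarith)
  rw [abs_le] at a1 a2 a3
  -- comparison of the error with the drop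
  have hkey : 4 * (C * Y / L ^ (2 * A + 3)) < n * (n / (Y * L ^ 2)) := by
    have e1 : 4 * (C * Y / L ^ (2 * A + 3)) = 4 * C * Y / L ^ (2 * A + 3) := by ring
    have e2 : (n : ℝ) * (n / (Y * L ^ 2)) = n ^ 2 / (Y * L ^ 2) := by ring
    rw [e1, e2, div_lt_div_iff₀ (by positivity) (by positivity)]
    have e3 : Y ^ 2 = 9 * n ^ 2 * (l ^ A) ^ 2 := by rw [hYdef]; ring
    have e4 : L ^ (2 * A + 3) = (L ^ A) ^ 2 * L ^ 2 * L := by ring
    rw [e4]
    have h5 : (l ^ A) ^ 2 ≤ (L ^ A) ^ 2 := by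
      apply pow_le_pow_left₀ (by positivity)
      exact pow_le_pow_left₀ hl0.le hLY A
    calc 4 * C * Y * (Y * L ^ 2) = 36 * C * (n ^ 2 * (l ^ A) ^ 2 * L ^ 2) := by
          have : 4 * C * Y * (Y * L ^ 2) = 4 * C * Y ^ 2 * L ^ 2 := by ring
          rw [this, e3]; ring
      _ < L * (n ^ 2 * (l ^ A) ^ 2 * L ^ 2) := by
          apply mul_lt_mul_of_pos_right (by linarith) (by positivity)
      _ ≤ L * (n ^ 2 * (L ^ A) ^ 2 * L ^ 2) := by gcongr
      _ = n ^ 2 * ((L ^ A) ^ 2 * L ^ 2 * L) := by ring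
  have hfin : (Nat.primeCounting (x + 2 * n) : ℝ) + Nat.primeCounting x < 2 * Nat.primeCounting (x + n) := by
    linarith [a1.2, a2.1, a3.2]
  exact_mod_cast hfin

/-- the `n`-th prime is at most `n log n ^ 2` -/
lemma nth_le : ∃ n₀ : ℕ, ∀ n : ℕ, n₀ ≤ n → (Nat.nth Nat.Prime (n - 1) : ℝ) ≤ n * Real.log n ^ 2 := by
  obtain ⟨C, hC, Y₀, hY₀, hE⟩ := err_unif 2
  have hlog : Tendsto (fun n : ℕ => Real.log n) atTop atTop := Real.tendsto_log_atTop.comp tendsto_natCast_atTop_atTop
  have hll : ∀ᶠ n : ℕ in atTop, Real.log (Real.log n) ≤ Real.log n := by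
    filter_upwards [hlog.eventually_ge_atTop 1] with n hn
    exact (Real.log_le_sub_one_of_pos (by linarith)).trans (by linarith)
  obtain ⟨n₀, h0⟩ := eventually_atTop.1 ((hlog.eventually_ge_atTop (max 13 (4 * C))).and
    (hll.and ((tendsto_natCast_atTop_atTop (R := ℝ)).eventually_ge_atTop Y₀)))
  refine ⟨max n₀ 1, fun n hn => ?_⟩
  obtain ⟨h1, h2, h3⟩ := h0 n ((le_max_left _ _).trans hn)
  have hn1 : 1 ≤ n := (le_max_right _ _).trans hn
  have h12 : 13 ≤ Real.log n := (le_max_left _ _).trans h1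
  have h4C : 4 * C ≤ Real.log n := (le_max_right _ _).trans h1
  have hn0 : (0 : ℝ) < n := by exact_mod_cast hn1
  set l := Real.log n with hl
  have hl0 : 0 < l := by linarith
  set y : ℕ := ⌊(n : ℝ) * l ^ 2⌋₊ with hy
  have hyle : (y : ℝ) ≤ n * l ^ 2 := Nat.floor_le (by positivity)
  have hyge : (n : ℝ) * l ^ 2 < y + 1 := Nat.lt_floor_add_one _
  have hn3 : (3 : ℝ) ≤ n := hY₀.trans h3
  have hyn : (n : ℝ) * (l ^ 2 - 1) ≤ y := by nlinarith
  have hny : (n : ℝ) ≤ y := by
    have h6 : (1 : ℝ) ≤ l ^ 2 - 1 := by nlinarith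
    calc (n : ℝ) = n * 1 := (mul_one _).symm
      _ ≤ n * (l ^ 2 - 1) := mul_le_mul_of_nonneg_left h6 hn0.le
      _ ≤ y := hyn
  have hy2 : 2 ≤ y := by
    have : (3 : ℝ) ≤ y := hn3.trans hny
    exact_mod_cast (by linarith : (2 : ℝ) ≤ y)
  have hy0 : (0 : ℝ) < y := by linarith
  have hYY : Y₀ ≤ (y : ℝ) := h3.trans hny
  have h5 := hE y hYY y hy2 le_rfl
  -- `log y ≤ 3 log n`
  have hly : Real.log y ≤ 3 * l := by
    have h6 : Real.log y ≤ Real.log (n * l ^ 2) := Real.log_le_log hy0 hyle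
    rw [Real.log_mul (by positivity) (by positivity), Real.log_pow] at h6
    push_cast at h6
    linarith
  have hly0 : l ≤ Real.log y := Real.log_le_log hn0 hny
  have hly1 : 0 < Real.log y := by linarith
  have hlis : ((y : ℝ) - 1) / Real.log y ≤ lis y := by
    unfold Pool.Agent.H442R2.EHI.lis
    have h7 : ∑ j ∈ Icc 2 y, 1 / Real.log y ≤ ∑ j ∈ Icc 2 y, 1 / Real.log j := by
      apply sum_le_sum
      intro j hj
      rw [mem_Icc] at hj
      have hj2 : (2 : ℝ) ≤ j := by exact_mod_cast hj.1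
      have hjy : (j : ℝ) ≤ y := by exact_mod_cast hj.2
      exact one_div_le_one_div_of_le (Real.log_pos (by linarith)) (Real.log_le_log (by linarith) hjy)
    rw [sum_const, Nat.card_Icc, nsmul_eq_mul] at h7
    refine le_trans (le_of_eq ?_) h7
    have : ((y + 1 - 2 : ℕ) : ℝ) = (y : ℝ) - 1 := by
      rw [Nat.cast_sub (by omega)]; push_cast; ring
    rw [this]; ring
  have hP : (n : ℝ) ≤ Nat.primeCounting y := by
    rw [abs_le] at h5
    have h8 : C * y / Real.log y ^ 2 ≤ y / (4 * Real.log y) := by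
      rw [div_le_div_iff₀ (by positivity) (by positivity)]
      have : 4 * C ≤ Real.log y := by linarith
      calc C * y * (4 * Real.log y) = (4 * C) * (y * Real.log y) := by ring
        _ ≤ Real.log y * (y * Real.log y) := by gcongr
        _ = y * Real.log y ^ 2 := by ring
    have h9 : y / 2 ≤ (y : ℝ) - 1 := by linarith
    have h10 : (y : ℝ) / 2 / Real.log y ≤ ((y : ℝ) - 1) / Real.log y := by gcongr
    have h11 : (y : ℝ) / 2 / Real.log y - y / (4 * Real.log y) = y / (4 * Real.log y) := by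
      field_simp; ring
    have h12' : (n : ℝ) ≤ y / (4 * Real.log y) := by
      rw [le_div_iff₀ (by positivity)]
      calc (n : ℝ) * (4 * Real.log y) ≤ n * (4 * (3 * l)) := by gcongr
        _ ≤ n * (l ^ 2 - 1) := by
            apply mul_le_mul_of_nonneg_left _ hn0.le
            nlinarith
        _ ≤ y := hyn
    linarith [h5.1]
  have hP' : n ≤ Nat.primeCounting y := by exact_mod_cast hP
  have h13 : Nat.nth Nat.Prime (n - 1) ≤ y := by
    have h14 : n - 1 < Nat.primeCounting y := by omega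
    have h15 := Nat.nth_lt_of_lt_count (p := Nat.Prime) (n := y + 1) (k := n - 1) (by
      unfold Nat.primeCounting Nat.primeCounting' at h14
      exact h14)
    omega
  calc (Nat.nth Nat.Prime (n - 1) : ℝ) ≤ y := by exact_mod_cast h13
    _ ≤ n * l ^ 2 := hyle

/-- For every `A` and all sufficiently large `n`, for EVERY prime `p ≤ p_n (log n) ^ A`, where `p_n` is the `n`-th
prime, the interval `(p + n, p + 2 n]` contains fewer primes than the interval `(p, p + n]`. -/
theorem result : ∀ A : ℕ, ∃ n₀ : ℕ, ∀ n : ℕ, n₀ ≤ n → ∀ p : ℕ, p.Prime →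
    (p : ℝ) ≤ Nat.nth Nat.Prime (n - 1) * Real.log n ^ A →
    Nat.primeCounting (p + 2 * n) - Nat.primeCounting (p + n) < Nat.primeCounting (p + n) - Nat.primeCounting p := by
  intro A
  obtain ⟨n₁, h1⟩ := main (A + 2)
  obtain ⟨n₂, h2⟩ := nth_le
  refine ⟨max n₁ (max n₂ 3), fun n hn p hp hpn => ?_⟩
  have hn1 : n₁ ≤ n := (le_max_left _ _).trans hn
  have hn2 : n₂ ≤ n := ((le_max_left _ _).trans (le_max_right _ _)).trans hn
  have hn3 : 3 ≤ n := ((le_max_right _ _).trans (le_max_right _ _)).trans hn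
  have hn3r : (3 : ℝ) ≤ n := by exact_mod_cast hn3
  have hl : 0 ≤ Real.log n := Real.log_nonneg (by linarith)
  have h3 := h1 n hn1 p hp.two_le (by
    refine hpn.trans ?_
    calc (Nat.nth Nat.Prime (n - 1) : ℝ) * Real.log n ^ A ≤ (n * Real.log n ^ 2) * Real.log n ^ A := by
          apply mul_le_mul_of_nonneg_right (h2 n hn2) (by positivity)
      _ = n * Real.log n ^ (A + 2) := by ring)
  have h4 : Nat.primeCounting (p + n) ≤ Nat.primeCounting (p + 2 * n) := Nat.monotone_primeCounting (by omega)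
  have h5 : Nat.primeCounting p ≤ Nat.primeCounting (p + n) := Nat.monotone_primeCounting (by omega)
  omega

end Pool.Agent.Results.MP_d7b30a_nt.FailsForLargeN
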